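import Mathlib

/-!
# Factoring a polynomial with given vanishing orders at `0` and at `1`
-/

set_option autoImplicit false

namespace Pool.Agent.E8helper57.AX

open Polynomial

lemma factor {P : ℚ[X]} {i n M : ℕ} (h1 : ∀ k < i, P.coeff k = 0)
    (h2 : ∀ b < n, (taylor 1 P).coeff b = 0) (h3 : P.natDegree ≤ M) :
    ∃ q : ℚ[X], P = X ^ i * ((1 - X) ^ n * q) ∧ q.natDegree ≤ M - (i + n) := by
  have d1 : X ^ i ∣ P := X_pow_dvd_iff.2 h1
  have d2 : (X - C 1) ^ n ∣ P := by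
    rw [X_sub_C_pow_dvd_iff, X_pow_dvd_iff]
    exact h2
  have hne : (1 - X : ℚ[X]) = -1 * (X - C 1) := by
    rw [C_1]
    ring
  have d3 : (1 - X : ℚ[X]) ^ n ∣ P := by
    obtain ⟨q, hq⟩ := d2
    refine ⟨(-1) ^ n * q, ?_⟩
    rw [hne, mul_pow, hq]
    have : ((-1 : ℚ[X]) ^ n) * (-1) ^ n = 1 := by
      rw [← mul_pow]
      norm_num
    calc (X - C 1) ^ n * q = (((-1 : ℚ[X]) ^ n) * (-1) ^ n) * ((X - C 1) ^ n * q) := by
          rw [this, one_mul]
      _ = _ := by ring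
  have hco : IsCoprime (X ^ i : ℚ[X]) ((1 - X) ^ n) :=
    IsCoprime.pow ⟨1, 1, by ring⟩
  obtain ⟨q, hq⟩ := hco.mul_dvd d1 d3
  rw [mul_assoc] at hq
  refine ⟨q, hq, ?_⟩
  by_cases hq0 : q = 0
  · rw [hq0, natDegree_zero]
    exact Nat.zero_le _
  have hX : (X ^ i : ℚ[X]) ≠ 0 := pow_ne_zero _ X_ne_zero
  have hd1 : (1 - X : ℚ[X]).natDegree = 1 := by
    rw [hne, show (-1 : ℚ[X]) * (X - C 1) = -(X - C 1) by ring, natDegree_neg, natDegree_X_sub_C]
  have hY0 : (1 - X : ℚ[X]) ≠ 0 := by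
    intro h
    rw [h, natDegree_zero] at hd1
    exact absurd hd1 (by norm_num)
  have hY : ((1 - X : ℚ[X]) ^ n) ≠ 0 := pow_ne_zero _ hY0
  have : P.natDegree = i + (n + q.natDegree) := by
    rw [hq, natDegree_mul hX (mul_ne_zero hY hq0), natDegree_mul hY hq0, natDegree_pow,
      natDegree_pow, natDegree_X, hd1, mul_one, mul_one]
  omega

end Pool.Agent.E8helper57.AX
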