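import Pool.Agent.E8helper80.AX.Defs
import Pool.Agent.E8helper57.AX.Fac

/-!
# Project AX: piece B3 (the apex coefficient vanishes)
-/

set_option autoImplicit false

namespace Pool.Agent.E8helper57.AX

open Finset Polynomial
open Pool.Agent.E8helper80.AX

lemma KK_bounds : 9.4749 < KK ∧ KK < 9.475 ∧ 10 - 3 * √11 = 19 - 2 * KK := by
  have h1 : (3.3166 : ℝ) < √11 := by
    rw [Real.lt_sqrt (by norm_num)]
    norm_num
  have h2 : √11 < (3.31665 : ℝ) := by
    rw [Real.sqrt_lt' (by norm_num)]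
    norm_num
  unfold KK
  refine ⟨by linarith, by linarith, by ring⟩

lemma wc_zero {f : (ℤ × ℤ) →₀ ℚ} {t : ℤ} {k : ℕ}
    (H : ∀ p ∈ f.support, p.1 = t → p.2.toNat < k) : wc f t k = 0 := by
  unfold wc
  refine Finset.sum_eq_zero fun p hp => ?_
  beta_reduce
  split_ifs with h
  · rw [Nat.choose_eq_zero_of_lt (H p hp h)]
    simp
  · rfl

section
variable {h m : ℕ} {f : (ℤ × ℤ) →₀ ℚ}

/-- facts on the support -/
lemma supp (hf : (↑f.support : Set (ℤ × ℤ)) ⊆ AB h) {p : ℤ × ℤ} (hp : p ∈ f.support) :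
    0 ≤ p.2 ∧ 0 ≤ p.1 ∧ p.2 ≤ h ∧ (KK - 9) * ((h : ℝ) - p.2) ≤ p.1 ∧
      (p.1 : ℝ) ≤ KK * ((h : ℝ) - p.2) := by
  obtain ⟨h1, h2, h3⟩ := hf (Finset.mem_coe.2 hp)
  obtain ⟨k1, k2, -⟩ := KK_bounds
  have h4 : (0 : ℝ) ≤ (h : ℝ) - p.2 := by
    by_contra hc
    push Not at hc
    nlinarith
  refine ⟨h1, ?_, ?_, h2, h3⟩
  · have : (0 : ℝ) ≤ (p.1 : ℝ) := le_trans (mul_nonneg (by linarith) h4) h2
    exact_mod_cast this
  · have : (p.2 : ℝ) ≤ (h : ℝ) := by linarith
    exact_mod_cast this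

variable
  (Hph : ∀ (f : (ℤ × ℤ) →₀ ℚ) (c : ℤ) (k : ℕ), (ph f c).coeff k = wc f (c + k) k)
  (Htay : ∀ (f : (ℤ × ℤ) →₀ ℚ) (c : ℤ) (b : ℕ), (taylor 1 (ph f c)).coeff b = tc f c b)
  (Hct : ∀ (f : (ℤ × ℤ) →₀ ℚ) (t : ℤ) (k : ℕ), (taylor 1 (colp f t)).coeff k = wc f t k)
  (Hcc : ∀ (f : (ℤ × ℤ) →₀ ℚ), (∀ p ∈ f.support, 0 ≤ p.2) → ∀ (t : ℤ) (j : ℕ),
    (colp f t).coeff j = f (t, (j : ℤ)))

include Hph in
lemma ph_high (hf : (↑f.support : Set (ℤ × ℤ)) ⊆ AB h) {c : ℤ} {k : ℕ}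
    (hk : KK * h < c + (KK + 1) * k) : (ph f c).coeff k = 0 := by
  rw [Hph]
  apply wc_zero
  intro p hp hpt
  obtain ⟨h1, -, -, -, h5⟩ := supp hf hp
  by_contra hc
  push Not at hc
  have h6 : (k : ℤ) ≤ p.2 := by omega
  have h7 : (k : ℝ) ≤ (p.2 : ℝ) := by exact_mod_cast h6
  have h8 : (p.1 : ℝ) = c + k := by rw [hpt]; push_cast; ring
  obtain ⟨k1, k2, -⟩ := KK_bounds
  rw [h8] at h5
  nlinarith

include Hph in
lemma ph_low (hf : (↑f.support : Set (ℤ × ℤ)) ⊆ AB h) {c : ℤ} {k : ℕ}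
    (hk : c + k < 0) : (ph f c).coeff k = 0 := by
  rw [Hph]
  apply wc_zero
  intro p hp hpt
  obtain ⟨-, h2, -⟩ := supp hf hp
  omega

variable (hd0 : 0 ≤ KK * h - (KK + 1) * m)
    (hd1 : KK * h - (KK + 1) * m < 9 * (10 - 3 * √11))
    (hf : (↑f.support : Set (ℤ × ℤ)) ⊆ AB h)
    (hH : ∀ b < m, ∀ c : ℤ, ⌊KK * h - (KK + 1) * (b : ℝ)⌋ < c + 11 * ((m : ℤ) - b) → tc f c b = 0)

include hH in
lemma tc_zero {b : ℕ} (hb : b < m) {c : ℤ}
    (hc : KK * h - (KK + 1) * m < c + (10 - KK) * ((m : ℝ) - b)) : tc f c b = 0 := by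
  refine hH b hb c ?_
  rw [Int.floor_lt]
  push_cast
  linarith

include Hph Htay hd1 hf hH in
lemma ph_zero {c : ℤ} (hc : 0 < c) : ph f c = 0 := by
  obtain ⟨k1, k2, k3⟩ := KK_bounds
  rw [k3] at hd1
  have hc' : (1 : ℝ) ≤ c := by exact_mod_cast hc
  apply taylor_injective 1
  rw [map_zero]
  ext b
  rw [coeff_zero]
  by_cases hb : b < m
  · rw [Htay]
    refine tc_zero hH hb ?_
    have hb' : (b : ℝ) < m := by exact_mod_cast hb
    have : 0 ≤ (10 - KK) * ((m : ℝ) - b) := mul_nonneg (by linarith) (by linarith)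
    linarith
  · push Not at hb
    have hdeg : (ph f c).degree < (m : ℕ) := by
      rw [degree_lt_iff_coeff_zero]
      intro k hk
      apply ph_high Hph hf
      have hk' : (m : ℝ) ≤ k := by exact_mod_cast hk
      nlinarith
    apply coeff_eq_zero_of_degree_lt
    rw [degree_taylor]
    exact hdeg.trans_le (by exact_mod_cast hb)

include Hph Htay hd1 hf hH in
lemma wc_low {t : ℤ} {k : ℕ} (hk : (k : ℤ) < t) : wc f t k = 0 := by
  have h1 := ph_zero Hph Htay hd1 hf hH (c := t - k) (by omega)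
  have h2 := Hph f (t - k) k
  rw [h1, coeff_zero, sub_add_cancel] at h2
  exact h2.symm

include Hph hd1 hf in
lemma ph_deg {i : ℕ} (hi : i ≤ 9) : (ph f (-(i : ℤ))).natDegree ≤ m := by
  obtain ⟨k1, k2, k3⟩ := KK_bounds
  rw [k3] at hd1
  rw [natDegree_le_iff_coeff_eq_zero]
  intro k hk
  apply ph_high Hph hf
  have hk' : (m : ℝ) + 1 ≤ k := by exact_mod_cast hk
  have hi' : (i : ℝ) ≤ 9 := by exact_mod_cast hi
  push_cast
  nlinarith

include Hph Htay hd1 hf hH in
lemma row {N : ℕ} (hN : N ≤ 9) (hN1 : 1 ≤ N)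
    (hdN : KK * h - (KK + 1) * m < N * (10 - 3 * √11)) (hm : 18 ≤ m) {i : ℕ} (hi : i ≤ N) :
    ∃ r : Polynomial ℚ, r.natDegree ≤ i ∧
      (∀ t ≤ N, wc f (t : ℤ) (t + i) = ((1 - X) ^ (m - 2 * i) * r).coeff t) ∧
      (i = N → r.eval 1 = 0) := by
  obtain ⟨k1, k2, k3⟩ := KK_bounds
  have hcoef : ∀ (Q : ℚ[X]), ph f (-(i : ℤ)) = X ^ i * Q → ∀ t : ℕ,
      wc f (t : ℤ) (t + i) = Q.coeff t := by
    intro Q hQ t
    have h1 := Hph f (-(i : ℤ)) (t + i)
    rw [hQ, coeff_X_pow_mul] at h1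
    rw [h1]
    congr 1
    push_cast
    ring
  have hlow : ∀ k < i, (ph f (-(i : ℤ))).coeff k = 0 := fun k hk =>
    ph_low Hph hf (by omega)
  have hi9 : i ≤ 9 := hi.trans hN
  have hdeg := ph_deg Hph hd1 hf hi9
  rw [k3] at hd1 hdN
  by_cases hiN : i = N
  · have htay : ∀ b < m - 2 * N + 1, (taylor 1 (ph f (-(i : ℤ)))).coeff b = 0 := by
      intro b hb
      rw [Htay]
      refine tc_zero hH (by omega) ?_
      have hb2 : b + 2 * N ≤ m := by omega
      have hb' : (2 : ℝ) * N ≤ (m : ℝ) - b := by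
        have : ((b + 2 * N : ℕ) : ℝ) ≤ (m : ℝ) := by exact_mod_cast hb2
        push_cast at this
        linarith
      have h5 := mul_le_mul_of_nonneg_left hb' (show (0 : ℝ) ≤ 10 - KK by linarith)
      rw [hiN]
      push_cast
      linarith
    obtain ⟨q, hq, hqd⟩ := factor hlow htay hdeg
    refine ⟨(1 - X) * q, ?_, ?_, ?_⟩
    · refine (natDegree_mul_le).trans ?_
      have : (1 - X : ℚ[X]).natDegree ≤ 1 := by
        refine (natDegree_sub_le _ _).trans ?_
        simp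
      omega
    · intro t _
      have e : (1 - X : ℚ[X]) ^ (m - 2 * N + 1) * q = (1 - X) ^ (m - 2 * i) * ((1 - X) * q) := by
        rw [hiN, pow_succ]
        ring
      rw [← e]
      exact hcoef _ hq t
    · intro _
      simp
  · have htay : ∀ b < m - 2 * i, (taylor 1 (ph f (-(i : ℤ)))).coeff b = 0 := by
      intro b hb
      rw [Htay]
      refine tc_zero hH (by omega) ?_
      have hb2 : b + (2 * i + 1) ≤ m := by omega
      have hb' : (2 : ℝ) * i + 1 ≤ (m : ℝ) - b := by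
        have : ((b + (2 * i + 1) : ℕ) : ℝ) ≤ (m : ℝ) := by exact_mod_cast hb2
        push_cast at this
        linarith
      have h5 := mul_le_mul_of_nonneg_left hb' (show (0 : ℝ) ≤ 10 - KK by linarith)
      have h6 : 0 ≤ (i : ℝ) * (19 - 2 * KK) := mul_nonneg (Nat.cast_nonneg i) (by linarith)
      push_cast
      nlinarith
    obtain ⟨q, hq, hqd⟩ := factor hlow htay hdeg
    refine ⟨q, by omega, fun t _ => hcoef _ hq t, fun h => absurd h hiN⟩

include Hph Htay Hct Hcc hd1 hf hH in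
lemma column {t : ℕ} (ht : t ≤ 9) (hh : 18 ≤ h) :
    ∃ g : Polynomial ℚ, g.natDegree ≤ t - 1 ∧
      ∀ i : ℕ, wc f (t : ℤ) (t + i) = ((1 + X) ^ (h - 2 * t) * g).coeff i := by
  obtain ⟨k1, k2, k3⟩ := KK_bounds
  have hpos : ∀ p ∈ f.support, 0 ≤ p.2 := fun p hp => (supp hf hp).1
  rcases Nat.eq_zero_or_pos t with h0 | h0
  · subst h0
    have hP : colp f ((0 : ℕ) : ℤ) = C (f (0, (h : ℤ))) * X ^ h := by
      ext j
      rw [Hcc f hpos, coeff_C_mul, coeff_X_pow]
      split_ifs with hj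
      · rw [hj, mul_one]
        rfl
      · rw [mul_zero]
        by_contra hne
        have hp : (((0 : ℕ) : ℤ), (j : ℤ)) ∈ f.support := Finsupp.mem_support_iff.2 hne
        obtain ⟨-, -, h3, h4, -⟩ := supp hf hp
        simp only [Nat.cast_zero, Int.cast_zero, Int.cast_natCast, Nat.cast_le] at h3 h4
        have h5 : (j : ℝ) < h := by
          have : j < h := by omega
          exact_mod_cast this
        nlinarith
    refine ⟨C (f (0, (h : ℤ))), by rw [natDegree_C], fun i => ?_⟩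
    rw [← Hct, hP, taylor_mul, taylor_pow, taylor_C, taylor_X, zero_add, mul_zero, Nat.sub_zero,
      C_1, add_comm X, mul_comm]
  · have hlow : ∀ j < h - 2 * t, (colp f (t : ℤ)).coeff j = 0 := by
      intro j hj
      rw [Hcc f hpos]
      by_contra hne
      have hp : ((t : ℤ), (j : ℤ)) ∈ f.support := Finsupp.mem_support_iff.2 hne
      obtain ⟨-, -, h3, h4, -⟩ := supp hf hp
      simp only [Int.cast_natCast] at h4
      have h5 : (2 : ℝ) * t + 1 ≤ (h : ℝ) - j := by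
        have : j + (2 * t + 1) ≤ h := by omega
        have : ((j + (2 * t + 1) : ℕ) : ℝ) ≤ h := by exact_mod_cast this
        push_cast at this
        linarith
      have h6 : (t : ℝ) ≤ 9 := by exact_mod_cast ht
      nlinarith
    have hdeg : (colp f (t : ℤ)).natDegree ≤ h - 1 := by
      rw [natDegree_le_iff_coeff_eq_zero]
      intro j hj
      rw [Hcc f hpos]
      by_contra hne
      have hp : ((t : ℤ), (j : ℤ)) ∈ f.support := Finsupp.mem_support_iff.2 hne
      obtain ⟨-, -, h3, -, h5⟩ := supp hf hp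
      simp only [Int.cast_natCast] at h5
      have h6 : (h : ℝ) ≤ j := by
        have : h ≤ j := by omega
        exact_mod_cast this
      have h7 : (1 : ℝ) ≤ t := by exact_mod_cast h0
      nlinarith
    have htay : ∀ b < t, (taylor 1 (colp f (t : ℤ))).coeff b = 0 := by
      intro b hb
      rw [Hct]
      exact wc_low Hph Htay hd1 hf hH (by exact_mod_cast hb)
    obtain ⟨q, hq, hqd⟩ := factor hlow htay hdeg
    have hT : taylor 1 (colp f (t : ℤ)) =
        X ^ t * ((1 + X) ^ (h - 2 * t) * ((-1) ^ t * taylor 1 q)) := by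
      rw [hq, taylor_mul, taylor_mul, taylor_pow, taylor_pow, taylor_X, map_sub, taylor_one,
        taylor_X]
      have e : (C 1 - (X + C 1) : ℚ[X]) = -1 * X := by ring
      rw [e, mul_pow, C_1, add_comm X]
      ring
    refine ⟨(-1) ^ t * taylor 1 q, ?_, fun i => ?_⟩
    · have e : ((-1 : ℚ[X]) ^ t) = C ((-1) ^ t) := by
        rw [C_pow, C_neg, C_1]
      rw [e]
      refine (natDegree_C_mul_le _ _).trans ?_
      rw [natDegree_taylor]
      omega
    · rw [← Hct, hT, add_comm t i, coeff_X_pow_mul]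

include Hph Htay Hct Hcc in
/-- the apex coefficient -/
theorem apexzero_of
    (Hcore : ∀ {m h e N : ℕ}, 3 ≤ e → h = m + e → 9 * e ≤ m → m ≤ 10 * e → N ≤ 9 → 1 ≤ N →
      ∀ b : ℕ → ℕ → ℚ,
      (∀ i ≤ N, ∃ r : Polynomial ℚ, r.natDegree ≤ i ∧
        (∀ t ≤ N, b t i = ((1 - X) ^ (m - 2 * i) * r).coeff t) ∧ (i = N → r.eval 1 = 0)) →
      (∀ t ≤ N, ∃ g : Polynomial ℚ, g.natDegree ≤ t - 1 ∧
        ∀ i ≤ N, b t i = ((1 + X) ^ (h - 2 * t) * g).coeff i) → b 0 0 = 0)
    {h m : ℕ} (hm : 1 ≤ m) (hd0 : 0 ≤ KK * h - (KK + 1) * m)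
    (hd1 : KK * h - (KK + 1) * m < 9 * (10 - 3 * √11))
    {f : (ℤ × ℤ) →₀ ℚ} (hf : (↑f.support : Set (ℤ × ℤ)) ⊆ AB h)
    (hH : ∀ b < m, ∀ c : ℤ, ⌊KK * h - (KK + 1) * (b : ℝ)⌋ < c + 11 * ((m : ℤ) - b) →
      tc f c b = 0) :
    f (0, (h : ℤ)) = 0 := by
  obtain ⟨k1, k2, k3⟩ := KK_bounds
  have heps : 0 < 10 - 3 * √11 := by rw [k3]; linarith
  -- the number `N`
  obtain ⟨N, hN, hN1, hdN⟩ : ∃ N : ℕ, N ≤ 9 ∧ 1 ≤ N ∧
      KK * h - (KK + 1) * m < N * (10 - 3 * √11) := by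
    refine ⟨⌊(KK * h - (KK + 1) * m) / (10 - 3 * √11)⌋₊ + 1, ?_, by omega, ?_⟩
    · have h1 : (KK * h - (KK + 1) * m) / (10 - 3 * √11) < (9 : ℕ) := by
        rw [div_lt_iff₀ heps]
        push_cast
        exact hd1
      have h2 := (Nat.floor_lt (div_nonneg hd0 heps.le)).2 h1
      omega
    · have h1 := Nat.lt_floor_add_one ((KK * h - (KK + 1) * m) / (10 - 3 * √11))
      rw [div_lt_iff₀ heps] at h1
      push_cast
      exact h1
  -- the number `e`
  have hm' : (1 : ℝ) ≤ m := by exact_mod_cast hm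
  have hd1' := hd1
  rw [k3] at hd1'
  have hhm : m < h := by
    by_contra hc
    push Not at hc
    have : (h : ℝ) ≤ m := by exact_mod_cast hc
    nlinarith
  obtain ⟨e, he⟩ : ∃ e, h = m + e := ⟨h - m, by omega⟩
  have heR : (h : ℝ) = m + e := by rw [he]; push_cast; ring
  have he1 : 1 ≤ e := by omega
  have hKe1 : (m : ℝ) ≤ KK * e := by rw [heR] at hd0; linarith
  have hKe2 : KK * e < m + 9 * (19 - 2 * KK) := by rw [heR] at hd1'; linarith
  have he' : (1 : ℝ) ≤ e := by exact_mod_cast he1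
  have hup : (m : ℝ) < 9.475 * e := by nlinarith
  have hlo : (9.4749 : ℝ) * e < m + 0.4518 := by nlinarith
  have he3 : 3 ≤ e := by
    by_contra hc
    have : e = 1 ∨ e = 2 := by omega
    rcases this with h1 | h1
    · rw [h1] at hup hlo
      norm_num at hup hlo
      have h2 : (m : ℝ) < 10 := by linarith
      have h3 : (9 : ℝ) < m := by linarith
      have h4 : m < 10 := by exact_mod_cast h2
      have h5 : 9 < m := by exact_mod_cast h3
      omega
    · rw [h1] at hup hlo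
      norm_num at hup hlo
      have h2 : (m : ℝ) < 19 := by linarith
      have h3 : (18 : ℝ) < m := by linarith
      have h4 : m < 19 := by exact_mod_cast h2
      have h5 : 18 < m := by exact_mod_cast h3
      omega
  have hm1 : 9 * e ≤ m := by
    have : ((9 * e : ℕ) : ℝ) ≤ m := by
      push_cast
      nlinarith
    exact_mod_cast this
  have hm2 : m ≤ 10 * e := by
    have : (m : ℝ) ≤ ((10 * e : ℕ) : ℝ) := by
      push_cast
      nlinarith
    exact_mod_cast this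
  have key := Hcore he3 he hm1 hm2 hN hN1 (fun t i => wc f (t : ℤ) (t + i))
    (fun i hi => row Hph Htay hd1 hf hH hN hN1 hdN (by omega) hi)
    (fun t ht => by
      obtain ⟨g, hg1, hg2⟩ := column Hph Htay Hct Hcc hd1 hf hH (t := t) (ht.trans hN) (by omega)
      exact ⟨g, hg1, fun i _ => hg2 i⟩)
  obtain ⟨g, hg1, hg2⟩ := column Hph Htay Hct Hcc hd1 hf hH (t := 0) (by omega) (by omega)
  -- the value at the apex
  have hpos : ∀ p ∈ f.support, 0 ≤ p.2 := fun p hp => (supp hf hp).1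
  have hcol : colp f ((0 : ℕ) : ℤ) = C (f (0, (h : ℤ))) * X ^ h := by
    ext j
    rw [Hcc f hpos, coeff_C_mul, coeff_X_pow]
    split_ifs with hj
    · rw [hj, mul_one]
      rfl
    · rw [mul_zero]
      by_contra hne
      have hp : (((0 : ℕ) : ℤ), (j : ℤ)) ∈ f.support := Finsupp.mem_support_iff.2 hne
      obtain ⟨-, -, h3, h4, -⟩ := supp hf hp
      simp only [Nat.cast_zero, Int.cast_zero, Int.cast_natCast, Nat.cast_le] at h3 h4
      have h5 : (j : ℝ) < h := by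
        have : j < h := by omega
        exact_mod_cast this
      nlinarith
  have h9 := Hct f ((0 : ℕ) : ℤ) 0
  simp only [add_zero] at key
  rw [key, hcol, taylor_coeff_zero] at h9
  simpa using h9

end

end Pool.Agent.E8helper57.AX
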